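import Pool.Agent.Helper56.HS.Stm

/-! HS LOW: the lower bound for the rank. -/

set_option autoImplicit false

namespace Pool.Agent.Helper38.HS

open Pool.Agent.Helper35.EM Pool.Agent.Helper56.SA Pool.Agent.Helper56.EM Pool.Agent.Helper56.NL
  Pool.Agent.Helper56.HS Module Submodule Set

/-- independent elements over `S` raise the rank of sets of elements algebraic over `S` -/
theorem rk_add {S C : Set ℂ} (hC : C ⊆ M.closure S) {I : Finset ℂ} (hI : IndS S (I : Set ℂ)) :
    ∀ J : Finset ℂ, J ⊆ I → M.eRk C + (J.card : ℕ∞) ≤ M.eRk (C ∪ (J : Set ℂ)) := by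
  classical
  intro J
  induction J using Finset.induction_on with
  | empty => intro _; simp
  | insert e J he ih =>
    intro hJ
    have hJI : J ⊆ I := fun x hx => hJ (Finset.mem_insert_of_mem hx)
    have heI : e ∈ I := hJ (Finset.mem_insert_self _ _)
    have h1 : e ∉ M.closure (C ∪ (J : Set ℂ)) := by
      intro h
      refine hI e heI (cl_le ?_ h)
      rintro x (hx | hx)
      · exact cl_mono subset_union_left (hC hx)
      · refine cl_self (Or.inr ⟨hJI hx, ?_⟩)
        rintro rfl
        exact he hx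
    have h2 : M.eRk (insert e (C ∪ (J : Set ℂ))) = M.eRk (C ∪ (J : Set ℂ)) + 1 :=
      Matroid.eRk_insert_eq_add_one ⟨mem_univ _, h1⟩
    have h3 : C ∪ ((insert e J : Finset ℂ) : Set ℂ) = insert e (C ∪ (J : Set ℂ)) := by
      rw [Finset.coe_insert, union_insert]
    rw [h3, h2, Finset.card_insert_of_notMem he]
    push_cast
    rw [← add_assoc]
    gcongr
    exact ih hJI

theorem low : S_LOW := by
  intro r hr K lam S P0 hB hRk V hfV
  obtain ⟨I, hI1, hI2, hI3⟩ := hRk V hfV
  have hstep : ∀ d e, r (d + e) ≤ r d + e := by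
    intro d e
    induction e with
    | zero => simp
    | succ e ih => have := hr.step (d + e); rw [← add_assoc]; omega
  have hmono : Monotone r := monotone_nat_of_le_succ hr.mono
  have hfM : FiniteDimensional ℚ (V.map (gr lam)) := inferInstance
  have hfU : FiniteDimensional ℚ (V.map (gr lam) ⊓ P0 : Submodule ℚ (ℂ × ℂ)) :=
    Submodule.finiteDimensional_inf_left _ _
  have hU := hB.low (V.map (gr lam) ⊓ P0) inf_le_right hfU
  have hC : co (V.map (gr lam) ⊓ P0) ⊆ M.closure S := by
    rintro x ⟨p, hp, rfl | rfl⟩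
    · exact hB.st.fst_mem p hp.2
    · exact hB.st.exp_mem p hp.2
  have h1 := rk_add hC hI2 I subset_rfl
  have h2 : r (finrank ℚ V) ≤
      r (finrank ℚ (V.map (gr lam) ⊓ P0 : Submodule ℚ (ℂ × ℂ))) + I.card := by
    refine (hmono hI3).trans ?_
    rw [add_comm]
    exact hstep _ _
  calc ((r (finrank ℚ V) : ℕ) : ℕ∞)
      ≤ ((r (finrank ℚ (V.map (gr lam) ⊓ P0 : Submodule ℚ (ℂ × ℂ))) + I.card : ℕ) : ℕ∞) := by
        exact_mod_cast h2
    _ ≤ M.eRk (co (V.map (gr lam) ⊓ P0)) + (I.card : ℕ∞) := by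
        push_cast
        gcongr
    _ ≤ _ := h1
    _ ≤ _ := M.eRk_mono (union_subset (co_mono inf_le_left) hI1)

end Pool.Agent.Helper38.HS
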